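import Pool.Agent.H301X.BG.Stmts

/-! Task Dyadic: the case of a vanishing Levi form. -/

set_option autoImplicit false

open MeasureTheory Topology Filter Set Metric
open scoped ENNReal NNReal ContDiff

namespace Pool.Agent.H301X.BG.Dyadic474

/-- the dyadic numbers `4, 1, 1/4, …` -/
noncomputable def s (j : ℕ) : ℝ := 4 * (1 / 4) ^ j

theorem s_pos (j : ℕ) : 0 < s j := by unfold s; positivity

theorem s_succ (j : ℕ) : s (j + 1) = s j / 4 := by unfold s; rw [pow_succ]; ring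

theorem s_anti {i j : ℕ} (h : i ≤ j) : s j ≤ s i := by
  unfold s
  have : ((1 : ℝ) / 4) ^ j ≤ (1 / 4) ^ i := pow_le_pow_of_le_one (by norm_num) (by norm_num) h
  linarith

variable {n : ℕ}

/-- superlevel sets -/
def O (G : Set (Fin n → ℂ)) (r : (Fin n → ℂ) → ℝ) (α : ℝ) : Set (Fin n → ℂ) := {z ∈ G | α < - r z}

/-- dyadic shells -/
def W (G : Set (Fin n → ℂ)) (r : (Fin n → ℂ) → ℝ) (α β : ℝ) : Set (Fin n → ℂ) :=
  {z ∈ G | α < - r z ∧ - r z ≤ β}

theorem O_open {G : Set (Fin n → ℂ)} (hG : IsOpen G) {r : (Fin n → ℂ) → ℝ}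
    (hr : ContinuousOn r G) (α : ℝ) : IsOpen (O G r α) := by
  have h := (hr.neg).isOpen_inter_preimage hG (isOpen_Ioi (a := α))
  exact h

theorem W_meas {G : Set (Fin n → ℂ)} (hG : IsOpen G) {r : (Fin n → ℂ) → ℝ}
    (hr : ContinuousOn r G) (α β : ℝ) : MeasurableSet (W G r α β) := by
  have : W G r α β = O G r α \ O G r β := by
    ext z
    simp only [W, O, mem_setOf_eq, mem_diff, not_and, not_lt]
    constructor
    · rintro ⟨h1, h2, h3⟩; exact ⟨⟨h1, h2⟩, fun _ => h3⟩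
    · rintro ⟨⟨h1, h2⟩, h3⟩; exact ⟨h1, h2, h3 h1⟩
  rw [this]
  exact (O_open hG hr α).measurableSet.diff (O_open hG hr β).measurableSet

/-- the shells add up -/
theorem sum_shells {G Ω : Set (Fin n → ℂ)} (hG : IsOpen G) (hGΩ : G ⊆ Ω)
    {r : (Fin n → ℂ) → ℝ} (hr : ContinuousOn r G) (F : (Fin n → ℂ) → ℝ≥0∞) :
    ∑' k : ℕ, ∫⁻ z in W G r (s (k + 3)) (s k), F z ≤ 3 * ∫⁻ z in Ω, F z := by
  set w : ℕ → ℝ≥0∞ := fun j => ∫⁻ z in W G r (s (j + 1)) (s j), F z with hw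
  have hsum : ∑' j, w j ≤ ∫⁻ z in Ω, F z := by
    rw [hw]
    rw [← lintegral_iUnion (fun j => W_meas hG hr _ _)]
    · apply lintegral_mono_set
      intro z hz
      rw [mem_iUnion] at hz
      obtain ⟨j, hj⟩ := hz
      exact hGΩ hj.1
    · intro i j hij
      rw [Function.onFun, Set.disjoint_left]
      rintro z ⟨-, h1, h2⟩ ⟨-, h3, h4⟩
      rcases lt_or_gt_of_ne hij with h | h
      · have := s_anti (show i + 1 ≤ j from h)
        linarith
      · have := s_anti (show j + 1 ≤ i from h)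
        linarith
  have hk : ∀ k, ∫⁻ z in W G r (s (k + 3)) (s k), F z ≤ w k + w (k + 1) + w (k + 2) := by
    intro k
    have hsub : W G r (s (k + 3)) (s k) ⊆
        (W G r (s (k + 1)) (s k) ∪ W G r (s (k + 1 + 1)) (s (k + 1))) ∪
          W G r (s (k + 2 + 1)) (s (k + 2)) := by
      rintro z ⟨h1, h2, h3⟩
      by_cases h4 : s (k + 1) < - r z
      · exact Or.inl (Or.inl ⟨h1, h4, h3⟩)
      · by_cases h5 : s (k + 2) < - r z
        · exact Or.inl (Or.inr ⟨h1, h5, not_lt.1 h4⟩)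
        · exact Or.inr ⟨h1, h2, not_lt.1 h5⟩
    calc ∫⁻ z in W G r (s (k + 3)) (s k), F z ≤ ∫⁻ z in
          ((W G r (s (k + 1)) (s k) ∪ W G r (s (k + 1 + 1)) (s (k + 1))) ∪
          W G r (s (k + 2 + 1)) (s (k + 2))), F z := lintegral_mono_set hsub
      _ ≤ (∫⁻ z in (W G r (s (k + 1)) (s k) ∪ W G r (s (k + 1 + 1)) (s (k + 1))), F z) +
          w (k + 2) := lintegral_union_le _ _ _
      _ ≤ w k + w (k + 1) + w (k + 2) := by
          gcongr
          exact lintegral_union_le _ _ _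
  have h1 : ∑' k, w (k + 1) ≤ ∑' j, w j :=
    ENNReal.tsum_comp_le_tsum_of_injective (add_left_injective 1) w
  have h2 : ∑' k, w (k + 2) ≤ ∑' j, w j :=
    ENNReal.tsum_comp_le_tsum_of_injective (add_left_injective 2) w
  calc ∑' k : ℕ, ∫⁻ z in W G r (s (k + 3)) (s k), F z
      ≤ ∑' k, (w k + w (k + 1) + w (k + 2)) := ENNReal.tsum_le_tsum hk
    _ = ∑' k, w k + ∑' k, w (k + 1) + ∑' k, w (k + 2) := by
        rw [ENNReal.tsum_add, ENNReal.tsum_add]
    _ ≤ ∑' k, w k + ∑' k, w k + ∑' k, w k := by gcongr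
    _ = 3 * ∑' k, w k := by ring
    _ ≤ 3 * ∫⁻ z in Ω, F z := by gcongr

end Pool.Agent.H301X.BG.Dyadic474

namespace Pool.Agent.H301X.BG

open Dyadic474

theorem Dyadic474.eball_open {n : ℕ} (c : Fin n → ℂ) (ρ : ℝ) : IsOpen (eball c ρ) := by
  unfold eball
  apply isOpen_lt
  · fun_prop
  · exact continuous_const

theorem Dyadic474.taskDyadic : TaskDyadic := by
  intro havg hinj hstrip n Ω U r p v ν a b c ρ hT hΩ hU hpU hr hΩU hrp hsub hmid η hη
  obtain ⟨K, hK, hmid⟩ := hmid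
  set M : ℝ := max 1 (24 * K / (Real.pi * η)) with hMdef
  have hpi := Real.pi_pos
  have hM1 : 1 ≤ M := le_max_left _ _
  have hM0 : 0 < M := by linarith
  have hMη : 24 * K / (Real.pi * M) ≤ η := by
    have h1 : 24 * K / (Real.pi * η) ≤ M := le_max_right _ _
    rw [div_le_iff₀ (by positivity)] at h1 ⊢
    calc 24 * K ≤ M * (Real.pi * η) := h1
      _ = η * (Real.pi * M) := by ring
  obtain ⟨ε₁, hε₁, hdisc⟩ := hT.disc (1 / (8 * M ^ 2)) (by positivity)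
  obtain ⟨ε₂, hε₂, hmid⟩ := hmid M hM1
  obtain ⟨ε₃, hε₃, hcont, T', hT'⟩ := hinj n p v ν a b hT.a_smooth
  have hD0 : ∀ q, D v ν a b 0 q = q := by intro q; simp [D]
  have hDcont : ContinuousAt (fun x : ℂ × (Fin n → ℂ) => D v ν a b x.1 x.2) (0, p) :=
    hcont.continuousAt (prod_mem_nhds (ball_mem_nhds 0 hε₃) (ball_mem_nhds p hε₃))
  have hUev : ∀ᶠ x in 𝓝 ((0 : ℂ), p), D v ν a b x.1 x.2 ∈ U := by
    apply hDcont.eventually
    simp only [hD0]
    exact hU.mem_nhds hpU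
  obtain ⟨ε₄, hε₄, h4⟩ := Metric.eventually_nhds_iff_ball.1 hUev
  have h4' : ∀ ζ ∈ ball (0 : ℂ) ε₄, ∀ q ∈ ball p ε₄, D v ν a b ζ q ∈ U := by
    intro ζ hζ q hq
    apply h4 (ζ, q)
    rw [← ball_prod_same]
    exact ⟨hζ, hq⟩
  set ε₀ := min (min ε₁ ε₂) (min ε₃ ε₄) with hε₀def
  have hε₀ : 0 < ε₀ := lt_min (lt_min hε₁ hε₂) (lt_min hε₃ hε₄)
  have e1 : ε₀ ≤ ε₁ := (min_le_left _ _).trans (min_le_left _ _)
  have e2 : ε₀ ≤ ε₂ := (min_le_left _ _).trans (min_le_right _ _)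
  have e3 : ε₀ ≤ ε₃ := (min_le_right _ _).trans (min_le_left _ _)
  have e4 : ε₀ ≤ ε₄ := (min_le_right _ _).trans (min_le_right _ _)
  set δ := min 1 ((ε₀ / (2 * M)) ^ 2) with hδdef
  have hδ : 0 < δ := lt_min one_pos (by positivity)
  have hrc : ContinuousAt r p := hr.continuousAt (hU.mem_nhds hpU)
  have h5ev : ∀ᶠ q in 𝓝 p, - r q < δ ∧ q ∈ U := by
    apply Filter.Eventually.and _ (hU.mem_nhds hpU)
    have : ContinuousAt (fun q => - r q) p := hrc.neg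
    have hlt : (fun q => - r q) p < δ := by
      simp only [hrp, neg_zero]
      exact hδ
    exact this.eventually (gt_mem_nhds hlt)
  obtain ⟨ε₅, hε₅, h5⟩ := Metric.eventually_nhds_iff_ball.1 h5ev
  refine ⟨min ε₀ ε₅, lt_min hε₀ hε₅, fun f hf => ?_⟩
  set F : (Fin n → ℂ) → ℝ≥0∞ := fun z => ‖f z‖ₑ ^ 2 with hF
  set E := eball c ρ ∩ ball p (min ε₀ ε₅) with hE
  have hEmeas : MeasurableSet E := (eball_open c ρ).measurableSet.inter measurableSet_ball
  have hGopen : IsOpen (Ω ∩ U) := hΩ.inter hU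
  have hrG : ContinuousOn r (Ω ∩ U) := hr.mono inter_subset_right
  have hEG : ∀ q ∈ E, q ∈ Ω ∩ U ∧ r q < 0 ∧ - r q < δ := by
    rintro q ⟨hq1, hq2⟩
    have h := h5 q (ball_subset_ball (min_le_right _ _) hq2)
    have hqG : q ∈ Ω ∩ U := ⟨hsub hq1, h.2⟩
    refine ⟨hqG, ?_, h.1⟩
    rw [hΩU] at hqG
    exact hqG.2
  have hEball : ∀ q ∈ E, q ∈ ball p ε₀ := fun q hq => ball_subset_ball (min_le_left _ _) hq.2
  set S : ℕ → Set (Fin n → ℂ) := fun k => E ∩ W (Ω ∩ U) r (s (k + 2)) (s (k + 1)) with hS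
  have hcover : E ⊆ ⋃ k, S k := by
    intro q hq
    obtain ⟨hqG, hq0, hqδ⟩ := hEG q hq
    have hle : - r q ≤ 1 := hqδ.le.trans (min_le_left _ _)
    obtain ⟨k, hk1, hk2⟩ := exists_nat_pow_near_of_lt_one (x := - r q) (y := (1 / 4 : ℝ))
      (by linarith) hle (by norm_num) (by norm_num)
    rw [mem_iUnion]
    refine ⟨k, hq, hqG, ?_, ?_⟩
    · have : s (k + 2) = (1 / 4) ^ (k + 1) := by unfold s; rw [pow_succ (1 / 4 : ℝ) (k + 1)]; ring
      rw [this]; exact hk1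
    · have : s (k + 1) = (1 / 4) ^ k := by unfold s; rw [pow_succ (1 / 4 : ℝ) k]; ring
      rw [this]; exact hk2
  set C₀ : ℝ≥0∞ := ENNReal.ofReal (8 * K / (Real.pi * M)) with hC₀
  have hshell : ∀ k, ∫⁻ z in S k, F z ≤ C₀ * ∫⁻ z in W (Ω ∩ U) r (s (k + 3)) (s k), F z := by
    intro k
    by_cases hne : (S k).Nonempty
    swap
    · rw [not_nonempty_iff_eq_empty] at hne
      rw [hne, Measure.restrict_empty, lintegral_zero_measure]
      exact bot_le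
    obtain ⟨q₀, hq₀E, hq₀W⟩ := hne
    set t := s (k + 1) with ht
    have ht0 : 0 < t := s_pos _
    have hst : √t ^ 2 = t := Real.sq_sqrt ht0.le
    have hsq0 : 0 < √t := Real.sqrt_pos.2 ht0
    have hs2 : s (k + 2) = t / 4 := s_succ (k + 1)
    have hs3 : s (k + 3) = t / 16 := by rw [s_succ (k + 2), hs2]; ring
    have hs0 : s k = 4 * t := by rw [ht, s_succ k]; ring
    have htδ : t < 4 * δ := by
      have h1 := hq₀W.2.1
      have h2 := (hEG q₀ hq₀E).2.2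
      rw [hs2] at h1
      linarith
    have hR : M * √t < ε₀ := by
      have h1 : t < (ε₀ / M) ^ 2 := by
        calc t < 4 * δ := htδ
          _ ≤ 4 * (ε₀ / (2 * M)) ^ 2 := by
            have := min_le_right 1 ((ε₀ / (2 * M)) ^ 2)
            linarith
          _ = (ε₀ / M) ^ 2 := by field_simp; ring
      have h2 : √t < ε₀ / M := (Real.sqrt_lt' (by positivity)).2 h1
      rw [lt_div_iff₀ hM0] at h2
      linarith
    have hR0 : 0 < M * √t := by positivity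
    have hmeasS : MeasurableSet (S k) := hEmeas.inter (W_meas hGopen hrG _ _)
    have hz : ∀ ε', ε₀ ≤ ε' → ∀ ζ ∈ ball (0 : ℂ) (M * √t), ζ ∈ ball (0 : ℂ) ε' :=
      fun ε' h ζ hζ => ball_subset_ball (hR.le.trans h) hζ
    have hqq : ∀ ε', ε₀ ≤ ε' → ∀ q ∈ S k, q ∈ ball p ε' :=
      fun ε' h q hq => ball_subset_ball h (hEball q hq.1)
    have key := havg n (S k) (W (Ω ∩ U) r (s (k + 3)) (s k)) Ω (fun ζ q => D v ν a b ζ q)
      (M * √t) (ENNReal.ofReal (4 * (M * √t) * (K * √t))) f T' hΩ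
      (fun z hz => hz.1.1) hf hmeasS (W_meas hGopen hrG _ _) hR0
      (fun q _ => hD0 q)
      (fun q _ => by
        apply Differentiable.differentiableOn
        unfold D
        fun_prop)
      (by
        intro q hq ζ hζ
        have hd := hdisc q (hqq ε₁ e1 q hq) ζ (hz ε₁ e1 ζ hζ)
        have hUD := h4' ζ (hz ε₄ e4 ζ hζ) q (hqq ε₄ e4 q hq)
        rw [mem_ball_zero_iff] at hζ
        have hζ2 : ‖ζ‖ ^ 2 ≤ M ^ 2 * t := by
          calc ‖ζ‖ ^ 2 ≤ (M * √t) ^ 2 := by gcongr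
            _ = M ^ 2 * t := by rw [mul_pow, hst]
        have hb : 1 / (8 * M ^ 2) * ‖ζ‖ ^ 2 ≤ t / 8 := by
          calc 1 / (8 * M ^ 2) * ‖ζ‖ ^ 2 ≤ 1 / (8 * M ^ 2) * (M ^ 2 * t) := by gcongr
            _ = t / 8 := by field_simp
        rw [zero_mul, sub_zero, abs_le] at hd
        have hW := hq.2
        have h1 := hW.2.1
        have h2 := hW.2.2
        rw [hs2] at h1
        have h3 : r (D v ν a b ζ q) < 0 := by linarith [hd.2]
        refine ⟨?_, ?_, ?_⟩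
        · rw [hΩU]; exact ⟨hUD, h3⟩
        · rw [hs3]; linarith [hd.2]
        · rw [hs0]; linarith [hd.1])
      (fun ζ hζ => (hT' ζ (hz ε₃ e3 ζ hζ)).1.mono (hqq ε₃ e3))
      (fun ζ hζ q hq => ⟨((hT' ζ (hz ε₃ e3 ζ hζ)).2 q (hqq ε₃ e3 q hq)).1.hasFDerivWithinAt,
        ((hT' ζ (hz ε₃ e3 ζ hζ)).2 q (hqq ε₃ e3 q hq)).2⟩)
      (hcont.mono (Set.prod_mono (hz ε₃ e3) (hqq ε₃ e3)))
      (by
        intro z hzm
        apply hstrip _ (M * √t) (K * √t) hR0 (by positivity) (fun ζ hζ => hζ.1) hzm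
        rintro ζ₁ ⟨hζ₁, q₁, hq₁, h₁⟩ ζ₂ ⟨hζ₂, q₂, hq₂, h₂⟩ hre
        have hr2 : ∀ q ∈ S k, r2 c ρ q < 0 := by
          intro q hq
          have := hq.1.1
          unfold eball at this
          simp only [mem_setOf_eq] at this
          unfold r2
          linarith
        exact hmid t ht0 (hR.trans_le e2) q₁ (hqq ε₂ e2 q₁ hq₁) q₂ (hqq ε₂ e2 q₂ hq₂)
          (hr2 q₁ hq₁) (hr2 q₂ hq₂) hq₁.2.2.2 ζ₁ hζ₁ ζ₂ hζ₂ (h₁.trans h₂.symm) hre)
    refine key.trans ?_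
    gcongr
    rw [← ENNReal.ofReal_mul (by positivity), hC₀]
    apply le_of_eq
    congr 1
    rw [mul_pow, hst]
    have : 4 * (M * √t) * (K * √t) = 4 * M * K * t := by
      calc 4 * (M * √t) * (K * √t) = 4 * M * K * √t ^ 2 := by ring
        _ = _ := by rw [hst]
    rw [this]
    field_simp
    ring
  calc ∫⁻ z in eball c ρ ∩ ball p (min ε₀ ε₅), ‖f z‖ₑ ^ 2
      ≤ ∫⁻ z in ⋃ k, S k, F z := lintegral_mono_set hcover
    _ ≤ ∑' k, ∫⁻ z in S k, F z := lintegral_iUnion_le _ _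
    _ ≤ ∑' k, C₀ * ∫⁻ z in W (Ω ∩ U) r (s (k + 3)) (s k), F z := ENNReal.tsum_le_tsum hshell
    _ = C₀ * ∑' k, ∫⁻ z in W (Ω ∩ U) r (s (k + 3)) (s k), F z := ENNReal.tsum_mul_left
    _ ≤ C₀ * (3 * ∫⁻ z in Ω, F z) := by
        gcongr
        exact sum_shells hGopen inter_subset_left hrG F
    _ = (C₀ * 3) * ∫⁻ z in Ω, F z := by rw [mul_assoc]
    _ ≤ ENNReal.ofReal η * ∫⁻ z in Ω, ‖f z‖ₑ ^ 2 := by
        gcongr
        have h3 : (3 : ℝ≥0∞) = ENNReal.ofReal 3 := by simp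
        rw [hC₀, h3, ← ENNReal.ofReal_mul (by positivity)]
        apply ENNReal.ofReal_le_ofReal
        calc 8 * K / (Real.pi * M) * 3 = 24 * K / (Real.pi * M) := by ring
          _ ≤ η := hMη

end Pool.Agent.H301X.BG
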